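import Pool.Agent.helper37.ND.SpecP
import Pool.Agent.helper79.GR.KEY

/-!
# MP_baa4d7_al, block P of ND: the permutation lemma PMS (helper30)
-/

set_option autoImplicit false

namespace Pool.Agent.ND

open Pool.Agent.helper58.DC Pool.Agent.DI Pool.Agent.GR

section

variable {P X : Type} [Group P] [MulAction P X]

theorem PMS_comm (τ : Equiv.Perm X) (hc : ∀ (a : P) (x : X), τ (a • x) = a • τ x) (k : ℕ) (a : P)
    (x : X) : (τ ^ k) (a • x) = a • (τ ^ k) x := by
  induction k with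
  | zero => rfl
  | succ k ih => rw [pow_succ', Equiv.Perm.mul_apply, ih, hc, Equiv.Perm.mul_apply]

/-- the permutation `x ↦ a • τ x` -/
def PMS_pi (τ : Equiv.Perm X) (a : P) : Equiv.Perm X := MulAction.toPerm a * τ

theorem PMS_pi_apply (τ : Equiv.Perm X) (a : P) (x : X) : PMS_pi τ a x = a • τ x := rfl

theorem PMS_pow (τ : Equiv.Perm X) (hc : ∀ (a : P) (x : X), τ (a • x) = a • τ x) (k : ℕ) (a : P)
    (x : X) : (PMS_pi τ a ^ k) x = a ^ k • (τ ^ k) x := by
  induction k with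
  | zero => rw [pow_zero, pow_zero, pow_zero, one_smul]
  | succ k ih =>
    rw [pow_succ', Equiv.Perm.mul_apply, ih, PMS_pi_apply, hc, pow_succ' a, mul_smul, pow_succ' τ,
      Equiv.Perm.mul_apply]

theorem PMS_ext_smul (τ : Equiv.Perm X) (hc : ∀ (a : P) (x : X), τ (a • x) = a • τ x) (m : ℕ)
    (hm : 0 < m) (a : P) (c : Fin m → X) (i : ℕ) :
    KEY_ext τ m hm (a • c) i = a • KEY_ext τ m hm c i := by
  unfold KEY_ext
  rw [Pi.smul_apply, PMS_comm τ hc]

theorem PMS_ext_eq (τ : Equiv.Perm X) (hc : ∀ (a : P) (x : X), τ (a • x) = a • τ x) (m : ℕ)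
    (hm : 0 < m) (a : P) (c : Fin m → X) (h : a • c = c) (i : ℕ) :
    KEY_ext (PMS_pi τ a) m hm c i = KEY_ext τ m hm c i := by
  unfold KEY_ext
  rw [PMS_pow τ hc, ← PMS_comm τ hc]
  congr 1
  have h1 : a ∈ MulAction.stabilizer P (c ⟨i % m, Nat.mod_lt _ hm⟩) := by
    rw [MulAction.mem_stabilizer_iff]
    exact congrFun h _
  exact MulAction.mem_stabilizer_iff.1 (Subgroup.pow_mem _ h1 _)

theorem PMS_coprime (a : P) (x : X) (n : ℕ) (hn : n.Coprime (orderOf a)) (h : a ^ n • x = x) :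
    a • x = x := by
  obtain ⟨k, hk⟩ := exists_pow_eq_self_of_coprime hn
  have h1 : a ^ n ∈ MulAction.stabilizer P x := MulAction.mem_stabilizer_iff.2 h
  have h2 := Subgroup.pow_mem _ h1 k
  rw [hk] at h2
  exact MulAction.mem_stabilizer_iff.1 h2

open Classical in
/-- the sum over the stabiliser -/
noncomputable def PMS_s [Fintype P] (f : P → ℂ) (x : X) : ℂ := ∑ a : P, if a • x = x then f a else 0

theorem PMS_s_smul [Fintype P] (f : P → ℂ) (hf : ∀ a b, f (b * a * b⁻¹) = f a) (g : P) (x : X) :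
    PMS_s f (g • x) = PMS_s f x := by
  classical
  unfold PMS_s
  rw [← Equiv.sum_comp (MulAut.conj g).toEquiv]
  refine Finset.sum_congr rfl fun a _ => ?_
  have h1 : (MulAut.conj g).toEquiv a = g * a * g⁻¹ := rfl
  have h2 : (g * a * g⁻¹) • g • x = g • x ↔ a • x = x := by
    rw [smul_smul, mul_assoc, inv_mul_cancel, mul_one, mul_smul, smul_left_cancel_iff]
  rw [h1, hf]
  by_cases h : a • x = x
  · rw [if_pos h, if_pos (h2.2 h)]
  · rw [if_neg h, if_neg (fun h' => h (h2.1 h'))]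

theorem PMS_s_one [Fintype P] (x : X) :
    PMS_s (fun _ : P => (1 : ℂ)) x = (Nat.card (MulAction.stabilizer P x) : ℂ) := by
  classical
  unfold PMS_s
  rw [Finset.sum_boole]
  congr 1
  rw [Nat.card_eq_fintype_card, Fintype.card_subtype]
  rfl

theorem PMS_s_fin [Fintype P] (f : P → ℂ) (x : X) :
    ∑ᶠ a ∈ ((MulAction.stabilizer P x : Subgroup P) : Set P), f a = PMS_s f x := by
  classical
  unfold PMS_s
  rw [finsum_mem_eq_finite_toFinset_sum _ (Set.toFinite _), ← Finset.sum_filter]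
  refine Finset.sum_congr ?_ fun _ _ => rfl
  ext a
  rw [Set.Finite.mem_toFinset, Finset.mem_filter]
  simp [MulAction.mem_stabilizer_iff]

end

theorem PMS (hBLA : BLA_stmt) (hORB : ORB_stmt) (hPRD : PRD_stmt) : PMS_stmt := by
  classical
  intro p M hS P X _ _ _ _ hPG τ n₀ hn₀ hτ hcomm ε hI hE hεP hετ f N hfN hfc hQ
  have hfact : Fact p.Prime := ⟨hS.pr⟩
  have hFP : Fintype P := Fintype.ofFinite P
  obtain ⟨v, hv⟩ := IsPGroup.iff_card.1 hPG
  have hp0 : (p : ℂ) ≠ 0 := hS.p_ne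
  obtain ⟨r, hr⟩ : ∃ r, r = N + v := ⟨_, rfl⟩
  have hT : Set.Finite {x : ℂ | ∃ z w, x = ε z w ∧ InM M x} := by
    refine (Set.finite_range (fun q : X × X => ε q.1 q.2)).subset ?_
    rintro x ⟨z, w, rfl, -⟩
    exact ⟨(z, w), rfl⟩
  obtain ⟨N', hN'⟩ := hPRD p M hS {x : ℂ | ∃ z w, x = ε z w ∧ InM M x} hT
    (by
      rintro x ⟨z, w, -, hx⟩
      exact hx) r
  obtain ⟨l, hl⟩ : ∃ l, l = max r N' := ⟨_, rfl⟩
  have hlr : r ≤ l := by rw [hl]; exact le_max_left _ _
  have hlN : N' ≤ p ^ l := by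
    have h1 : l < p ^ l := Nat.lt_pow_self hS.pr.one_lt
    have h2 : N' ≤ l := by rw [hl]; exact le_max_right _ _
    omega
  obtain ⟨m, hm⟩ : ∃ m, m = p ^ l := ⟨_, rfl⟩
  have hm0 : 0 < m := by rw [hm]; exact pow_pos hS.pr.pos _
  have hcop : ∀ a : P, n₀.Coprime (orderOf a) := by
    intro a
    have h1 : orderOf a ∣ p ^ v := by rw [← hv]; exact orderOf_dvd_natCard a
    exact Nat.Coprime.coprime_dvd_right h1 (Nat.Coprime.pow_right v
      ((Nat.Prime.coprime_iff_not_dvd hS.pr).2 hn₀).symm)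
  obtain ⟨R, hR⟩ : ∃ R : P → Equiv.Perm (Fin m → X), ∀ a c, R a c = KEY_shift (PMS_pi τ a) m hm0 c :=
    ⟨fun a => Equiv.ofBijective _ (Finite.injective_iff_bijective.1
      (KEY_shift_inj (PMS_pi τ a) m hm0)), fun _ _ => rfl⟩
  have hRf : ∀ a, (R a : (Fin m → X) → (Fin m → X)) = KEY_shift (PMS_pi τ a) m hm0 :=
    fun a => funext (hR a)
  have hRj : ∀ a j c i, KEY_ext (PMS_pi τ a) m hm0 ((R a ^ j) c) i =
      KEY_ext (PMS_pi τ a) m hm0 c (i + j) := by
    intro a j c i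
    rw [← Equiv.Perm.iterate_eq_pow, hRf, KEY_ext_iter]
  have hinv : ∀ (a : P) z w, ε (PMS_pi τ a z) (PMS_pi τ a w) = ε z w := by
    intro a z w
    rw [PMS_pi_apply, PMS_pi_apply, hεP, hετ]
  obtain ⟨wa, hwa⟩ : ∃ wa : P → (Fin m → X) → ℂ, ∀ a c, wa a c = ∏ i ∈ Finset.range m,
    ε (KEY_ext (PMS_pi τ a) m hm0 c i) (KEY_ext (PMS_pi τ a) m hm0 c (i + 1)) := ⟨_, fun _ _ => rfl⟩
  have hwR : ∀ a c, wa a (R a c) = wa a c := by
    intro a c
    rw [hwa, hwa, hR]
    exact KEY_wR ε (PMS_pi τ a) (hinv a) m hm0 c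
  have hwRj : ∀ a j c, wa a ((R a ^ j) c) = wa a c := by
    intro a j
    induction j with
    | zero => intro c; rfl
    | succ j ih => intro c; rw [pow_succ', Equiv.Perm.mul_apply, hwR, ih]
  obtain ⟨R', hR'⟩ : ∃ R' : Equiv.Perm (P × (Fin m → X)), ∀ q, R' q = (q.1, (R q.1 ^ n₀) q.2) :=
    ⟨{ toFun := fun q => (q.1, (R q.1 ^ n₀) q.2)
       invFun := fun q => (q.1, ((R q.1 ^ n₀)⁻¹) q.2)
       left_inv := fun q => by simp
       right_inv := fun q => by simp }, fun _ => rfl⟩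
  have hR'j : ∀ j q, (R' ^ j) q = (q.1, ((R q.1 ^ n₀) ^ j) q.2) := by
    intro j
    induction j with
    | zero => intro q; rfl
    | succ j ih =>
      intro q
      rw [pow_succ', Equiv.Perm.mul_apply, ih, hR', pow_succ' (R q.1 ^ n₀), Equiv.Perm.mul_apply]
  have horb := hORB p M hS (P × (Fin m → X)) R' (l + v) r (by
    refine Equiv.ext fun q => ?_
    rw [hR'j, Equiv.Perm.one_apply]
    refine Prod.ext rfl ?_
    show ((R q.1 ^ n₀) ^ (p ^ (l + v))) q.2 = q.2
    rw [← pow_mul]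
    refine KEY_ext_inj (PMS_pi τ q.1) m hm0 _ _ fun i => ?_
    rw [hRj]
    have h1 : i + n₀ * p ^ (l + v) = i + m * (p ^ v * n₀) := by
      rw [hm, pow_add]
      ring
    rw [h1, KEY_ext_add, PMS_pow τ hcomm, pow_mul, ← hv, pow_card_eq_one', one_pow, one_smul,
      mul_comm, pow_mul, hτ, one_pow, Equiv.Perm.one_apply])
    (fun q => (p : ℂ) ^ N * f q.1 * wa q.1 q.2) (by
      intro q
      refine (hfN q.1).mul hS ?_
      rw [hwa]
      exact IntAt.prod hS _ fun i _ => hI _ _) (by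
      intro q
      rw [hR']
      show (p : ℂ) ^ N * f q.1 * wa q.1 ((R q.1 ^ n₀) q.2) = _
      rw [hwRj])
  obtain ⟨F, hF, hFs⟩ : ∃ F : Finset (P × (Fin m → X)), (∀ q, q ∈ F ↔ (R' ^ (p ^ r)) q = q) ∧
      Small p M (r + 1) (∑ q : P × (Fin m → X), (p : ℂ) ^ N * f q.1 * wa q.1 q.2 -
        ∑ q ∈ F, (p : ℂ) ^ N * f q.1 * wa q.1 q.2) := ⟨_, fun q => by simp, horb⟩
  -- the set `Y`
  obtain ⟨Y, hY⟩ : ∃ Y : Set (Fin m → X), ∀ c, c ∈ Y ↔ ∀ i, KEY_ext τ m hm0 c (i + n₀ * p ^ r) =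
      KEY_ext τ m hm0 c i := ⟨{c | _}, fun _ => Iff.rfl⟩
  obtain ⟨w, hw⟩ : ∃ w : (Fin m → X) → ℂ, ∀ c, w c = ∏ i ∈ Finset.range m,
    ε (KEY_ext τ m hm0 c i) (KEY_ext τ m hm0 c (i + 1)) := ⟨_, fun _ => rfl⟩
  have hYsmul : ∀ (g : P) c, g • c ∈ Y ↔ c ∈ Y := by
    intro g c
    rw [hY, hY]
    refine forall_congr' fun i => ?_
    rw [PMS_ext_smul τ hcomm, PMS_ext_smul τ hcomm, smul_left_cancel_iff]
  have hwsmul : ∀ (g : P) c, w (g • c) = w c := by
    intro g c
    rw [hw, hw]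
    refine Finset.prod_congr rfl fun i _ => ?_
    rw [PMS_ext_smul τ hcomm, PMS_ext_smul τ hcomm, hεP]
  have hmem : ∀ (a : P) c, (a, c) ∈ F ↔ a • c = c ∧ c ∈ Y := by
    intro a c
    have h0 : (a, c) ∈ F ↔ ∀ i, KEY_ext (PMS_pi τ a) m hm0 c (i + n₀ * p ^ r) =
        KEY_ext (PMS_pi τ a) m hm0 c i := by
      rw [hF, hR'j]
      constructor
      · intro h i
        have h1 : ((R a ^ n₀) ^ (p ^ r)) c = c := (Prod.mk.inj h).2
        rw [← pow_mul] at h1
        rw [← hRj, h1]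
      · intro h
        refine Prod.ext rfl ?_
        show ((R a ^ n₀) ^ (p ^ r)) c = c
        rw [← pow_mul]
        refine KEY_ext_inj (PMS_pi τ a) m hm0 _ _ fun i => ?_
        rw [hRj, h]
    rw [h0]
    constructor
    · intro h
      have hc2 : ∀ k i, KEY_ext (PMS_pi τ a) m hm0 c (i + n₀ * p ^ r * k) =
          KEY_ext (PMS_pi τ a) m hm0 c i := by
        intro k
        induction k with
        | zero => intro i; rfl
        | succ k ih =>
          intro i
          have h3 : i + n₀ * p ^ r * (k + 1) = (i + n₀ * p ^ r * k) + n₀ * p ^ r := by ring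
          rw [h3, h, ih]
      have hfix : a • c = c := by
        funext i
        have h3 := hc2 (p ^ (l - r)) (i : ℕ)
        have h4 : ∀ i0 : ℕ, i0 + n₀ * p ^ r * p ^ (l - r) = i0 + m * n₀ := by
          intro i0
          rw [hm, mul_assoc, ← pow_add, Nat.add_sub_cancel' hlr]
          ring
        rw [h4, KEY_ext_add, KEY_ext_lt, PMS_pow τ hcomm, hτ, Equiv.Perm.one_apply] at h3
        exact PMS_coprime a (c i) n₀ (hcop a) h3
      refine ⟨hfix, ?_⟩
      rw [hY]
      intro i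
      rw [← PMS_ext_eq τ hcomm m hm0 a c hfix, ← PMS_ext_eq τ hcomm m hm0 a c hfix, h]
    · rintro ⟨hfix, hcY⟩ i
      rw [PMS_ext_eq τ hcomm m hm0 a c hfix, PMS_ext_eq τ hcomm m hm0 a c hfix]
      exact (hY c).1 hcY i
  have hwfix : ∀ (a : P) c, a • c = c → wa a c = w c := by
    intro a c h
    rw [hwa, hw]
    refine Finset.prod_congr rfl fun i _ => ?_
    rw [PMS_ext_eq τ hcomm m hm0 a c h, PMS_ext_eq τ hcomm m hm0 a c h]
  have hFsum : ∑ q ∈ F, (p : ℂ) ^ N * f q.1 * wa q.1 q.2 =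
      (p : ℂ) ^ N * ∑ c : Fin m → X, if c ∈ Y then w c * PMS_s f c else 0 := by
    have h1 : ∑ q ∈ F, (p : ℂ) ^ N * f q.1 * wa q.1 q.2 =
        ∑ q : P × (Fin m → X), if q ∈ F then (p : ℂ) ^ N * f q.1 * wa q.1 q.2 else 0 := by
      rw [Finset.sum_ite_mem, Finset.univ_inter]
    rw [h1, Fintype.sum_prod_type, Finset.sum_comm, Finset.mul_sum]
    refine Finset.sum_congr rfl fun c _ => ?_
    by_cases hc : c ∈ Y
    · rw [if_pos hc]
      unfold PMS_s
      rw [Finset.mul_sum, Finset.mul_sum]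
      refine Finset.sum_congr rfl fun a _ => ?_
      by_cases ha : a • c = c
      · rw [if_pos ((hmem a c).2 ⟨ha, hc⟩), if_pos ha]
        show (p : ℂ) ^ N * f a * wa a c = _
        rw [hwfix a c ha]
        ring
      · rw [if_neg (fun h => ha ((hmem a c).1 h).1), if_neg ha, mul_zero, mul_zero]
    · rw [if_neg hc, mul_zero]
      refine Finset.sum_eq_zero fun a _ => ?_
      rw [if_neg (fun h => hc ((hmem a c).1 h).2)]
  -- the total sum
  have htot : ∑ q : P × (Fin m → X), (p : ℂ) ^ N * f q.1 * wa q.1 q.2 =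
      (p : ℂ) ^ N * ∑ a : P, f a * ∑ x, ε x (a • τ x) := by
    rw [Fintype.sum_prod_type, Finset.mul_sum]
    refine Finset.sum_congr rfl fun a _ => ?_
    have h1 := KEY_trace ε (PMS_pi τ a) hE m hm0
    have h2 : ∑ z, ε z (PMS_pi τ a z) = ∑ x, ε x (a • τ x) := rfl
    rw [← h2, ← h1, ← mul_assoc, Finset.mul_sum]
    exact Finset.sum_congr rfl fun c _ => by rw [← hwa]
  -- BLA
  have hcardP : ((Nat.card P : ℕ) : ℂ) = (p : ℂ) ^ v := by rw [hv]; push_cast; rfl
  have hstab : ∀ c : Fin m → X, ((Nat.card (MulAction.stabilizer P c) : ℕ) : ℂ) ≠ 0 := by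
    intro c
    exact_mod_cast Nat.card_pos.ne'
  have hB := hBLA p M hS P (Fin m → X) (fun c => if c ∈ Y then
      (Nat.card (MulAction.stabilizer P c) : ℂ)⁻¹ * (w c * PMS_s f c) else 0) (by
      intro g c
      show (if g • c ∈ Y then (Nat.card (MulAction.stabilizer P (g • c)) : ℂ)⁻¹ *
        (w (g • c) * PMS_s f (g • c)) else 0) = _
      rw [← PMS_s_one, PMS_s_smul _ (fun _ _ => rfl), PMS_s_one, hwsmul, PMS_s_smul f hfc]
      by_cases hc : c ∈ Y
      · rw [if_pos hc, if_pos ((hYsmul g c).2 hc)]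
      · rw [if_neg hc, if_neg (fun h => hc ((hYsmul g c).1 h))]) (by
      intro c
      show IntAt M (if c ∈ Y then (Nat.card (MulAction.stabilizer P c) : ℂ)⁻¹ *
        (w c * PMS_s f c) else 0)
      by_cases hc : c ∈ Y
      · rw [if_pos hc]
        by_cases hall : ∀ i ∈ Finset.range m, InM M (ε (KEY_ext τ m hm0 c i) (KEY_ext τ m hm0 c (i + 1)))
        · have hsm : Small p M r (w c) := by
            rw [hw, Finset.prod_range]
            refine hN' m (by rw [hm]; exact hlN) _ fun i => ⟨_, _, rfl, hall i (Finset.mem_range.2 i.2)⟩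
          obtain ⟨w', hw', hww⟩ := hsm
          obtain ⟨j, hj⟩ := IsPGroup.iff_card.1 (hPG.to_subgroup (MulAction.stabilizer P c))
          have hjv : j ≤ v := by
            have h1 : Nat.card (MulAction.stabilizer P c) ∣ Nat.card P := Subgroup.card_subgroup_dvd_card _
            rw [hj, hv] at h1
            exact (Nat.pow_dvd_pow_iff_le_right hS.pr.one_lt).1 h1
          have hps : IntAt M ((p : ℂ) ^ N * PMS_s f c) := by
            unfold PMS_s
            rw [Finset.mul_sum]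
            refine IntAt.sum hS _ fun a _ => ?_
            by_cases ha : a • c = c
            · rw [if_pos ha]
              exact hfN a
            · rw [if_neg ha, mul_zero]
              exact IntAt.zero hS
          have heq : (Nat.card (MulAction.stabilizer P c) : ℂ)⁻¹ * (w c * PMS_s f c) =
              ((p : ℂ) ^ N * PMS_s f c) * ((p : ℂ) ^ (v - j) * w') := by
            rw [hww, hj, hr]
            have h2 : (p : ℂ) ^ (N + v) = (p : ℂ) ^ N * ((p : ℂ) ^ j * (p : ℂ) ^ (v - j)) := by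
              rw [← pow_add, Nat.add_sub_cancel' hjv, ← pow_add]
            rw [h2]
            push_cast
            field_simp
          rw [heq]
          exact hps.mul hS (((IntAt.natCast hS p).pow hS _).mul hS hw')
        · push Not at hall
          obtain ⟨i, hi, hni⟩ := hall
          have h1 := hQ (MulAction.stabilizer P c) ⟨KEY_ext τ m hm0 c i, KEY_ext τ m hm0 c (i + 1),
            fun a ha => by
              rw [← PMS_ext_smul τ hcomm, MulAction.mem_stabilizer_iff.1 ha],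
            fun a ha => by
              rw [← PMS_ext_smul τ hcomm, MulAction.mem_stabilizer_iff.1 ha], hni⟩
          rw [PMS_s_fin] at h1
          have heq : (Nat.card (MulAction.stabilizer P c) : ℂ)⁻¹ * (w c * PMS_s f c) =
              ((Nat.card (MulAction.stabilizer P c) : ℂ)⁻¹ * PMS_s f c) * w c := by ring
          rw [heq]
          refine h1.mul hS ?_
          rw [hw]
          exact IntAt.prod hS _ fun i _ => hI _ _
      · rw [if_neg hc]
        exact IntAt.zero hS)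
  rw [finsum_eq_sum_of_fintype] at hB
  have hBsum : ∑ c : Fin m → X, (Nat.card (MulAction.stabilizer P c) : ℂ) * (if c ∈ Y then
      (Nat.card (MulAction.stabilizer P c) : ℂ)⁻¹ * (w c * PMS_s f c) else 0) =
      ∑ c : Fin m → X, if c ∈ Y then w c * PMS_s f c else 0 := by
    refine Finset.sum_congr rfl fun c _ => ?_
    by_cases hc : c ∈ Y
    · rw [if_pos hc, if_pos hc, mul_inv_cancel_left₀ (hstab c)]
    · rw [if_neg hc, if_neg hc, mul_zero]
  rw [hBsum] at hB
  rw [htot, hFsum] at hFs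
  obtain ⟨e, he, hee⟩ := hFs
  rw [finsum_eq_sum_of_fintype]
  have hgoal : (Nat.card P : ℂ)⁻¹ * ∑ a : P, f a * ∑ x, ε x (a • τ x) =
      (p : ℂ) * e + (Nat.card P : ℂ)⁻¹ * ∑ c : Fin m → X, (if c ∈ Y then w c * PMS_s f c else 0) := by
    have h1 : (p : ℂ) ^ N * ∑ a : P, f a * ∑ x, ε x (a • τ x) =
        (p : ℂ) ^ (r + 1) * e + (p : ℂ) ^ N * ∑ c : Fin m → X, (if c ∈ Y then w c * PMS_s f c else 0) := by
      rw [← hee]
      ring
    have h2 : ∑ a : P, f a * ∑ x, ε x (a • τ x) = (p : ℂ) ^ (v + 1) * e +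
        ∑ c : Fin m → X, (if c ∈ Y then w c * PMS_s f c else 0) := by
      have h3 : (p : ℂ) ^ N ≠ 0 := pow_ne_zero _ hp0
      apply mul_left_cancel₀ h3
      rw [h1, hr]
      ring
    rw [h2, hcardP]
    have h4 : (p : ℂ) ^ v ≠ 0 := pow_ne_zero _ hp0
    field_simp
    ring
  rw [hgoal]
  exact ((IntAt.natCast hS p).mul hS he).add hS hB

end Pool.Agent.ND
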